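import Pool.Agent.helper73.TC.XDefs

/-!
# Realizations: compactness, separation, relabelling

Used for `MP_a50e43_gt` (tight polyhedral embedding of complex projective 3-space).
-/

set_option autoImplicit false
open Topology

noncomputable section
namespace Pool.Agent.helper73.TC

namespace RAux

/-- evaluation at a vertex, as a function on the realization -/
def ev {V : Type} [Fintype V] {C : Set (Finset V)} (w : Real C) (v : V) : ℝ := (w.1 : V → ℝ) v

theorem ev_nonneg {V : Type} [Fintype V] {C : Set (Finset V)} (w : Real C) (v : V) : 0 ≤ ev w v :=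
  w.1.2.1 v

theorem ev_sum {V : Type} [Fintype V] {C : Set (Finset V)} (w : Real C) : ∑ v, ev w v = 1 :=
  w.1.2.2

theorem ev_mem {V : Type} [Fintype V] {C : Set (Finset V)} (w : Real C) :
    (Finset.univ.filter fun v => 0 < ev w v) ∈ C := w.2

theorem continuous_ev {V : Type} [Fintype V] {C : Set (Finset V)} (v : V) :
    Continuous fun w : Real C => ev w v :=
  (continuous_apply v).comp (continuous_subtype_val.comp continuous_subtype_val)

/-- constructor of points of the realization -/
def mk {V : Type} [Fintype V] {C : Set (Finset V)} (f : V → ℝ) (h0 : ∀ v, 0 ≤ f v)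
    (h1 : ∑ v, f v = 1) (h2 : (Finset.univ.filter fun v => 0 < f v) ∈ C) : Real C :=
  ⟨⟨f, h0, h1⟩, h2⟩

@[simp] theorem ev_mk {V : Type} [Fintype V] {C : Set (Finset V)} (f : V → ℝ) (h0 : ∀ v, 0 ≤ f v)
    (h1 : ∑ v, f v = 1) (h2 : (Finset.univ.filter fun v => 0 < f v) ∈ C) (v : V) :
    ev (mk (C := C) f h0 h1 h2) v = f v := rfl

theorem ext {V : Type} [Fintype V] {C : Set (Finset V)} {a b : Real C} (h : ∀ v, ev a v = ev b v) :
    a = b := by
  apply Subtype.ext
  apply Subtype.ext
  funext v
  exact h v

end RAux

open RAux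

theorem compact_Real {V : Type} [Fintype V] [DecidableEq V] (C : Set (Finset V)) (hC : DownClosed C) :
    CompactSpace (Real C) := by
  have key : IsClosed {w : stdSimplex ℝ V | (Finset.univ.filter fun v => 0 < (w : V → ℝ) v) ∈ C} := by
    have hfin : C.Finite := Set.toFinite C
    have he : {w : stdSimplex ℝ V | (Finset.univ.filter fun v => 0 < (w : V → ℝ) v) ∈ C} =
        ⋃ s ∈ C, {w : stdSimplex ℝ V | ∀ v, v ∉ s → (w : V → ℝ) v = 0} := by
      ext w
      simp only [Set.mem_ofPred_eq, Set.mem_iUnion, exists_prop]
      constructor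
      · intro hw
        refine ⟨_, hw, fun v hv => ?_⟩
        simp only [Finset.mem_filter, Finset.mem_univ, true_and, not_lt] at hv
        exact le_antisymm hv (w.2.1 v)
      · rintro ⟨s, hs, hw⟩
        refine hC s hs _ fun v hv => ?_
        simp only [Finset.mem_filter, Finset.mem_univ, true_and] at hv
        by_contra hvs
        exact absurd (hw v hvs) hv.ne'
    rw [he]
    refine hfin.isClosed_biUnion fun s _ => ?_
    have : {w : stdSimplex ℝ V | ∀ v, v ∉ s → (w : V → ℝ) v = 0} =
        ⋂ v, ⋂ (_ : v ∉ s), {w : stdSimplex ℝ V | (w : V → ℝ) v = 0} := by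
      ext w
      simp
    rw [this]
    refine isClosed_iInter fun v => isClosed_iInter fun _ => ?_
    exact isClosed_eq ((continuous_apply v).comp continuous_subtype_val) continuous_const
  exact isCompact_iff_compactSpace.mp key.isCompact

theorem t2_Real {V : Type} [Fintype V] (C : Set (Finset V)) : T2Space (Real C) :=
  inferInstanceAs (T2Space {w : stdSimplex ℝ V //
    (Finset.univ.filter fun v => 0 < (w : V → ℝ) v) ∈ C})

theorem relabel_homeo {V W : Type} [Fintype V] [Fintype W] [DecidableEq V] [DecidableEq W]
    (lam : V → W) (hl : Function.Injective lam) (C : Set (Finset V)) (D : Set (Finset W))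
    (hD : ∀ t, t ∈ D ↔ ∃ s ∈ C, t = s.image lam) : Nonempty (Real C ≃ₜ Real D) := by
  -- push-forward of weights
  set pf : (V → ℝ) → W → ℝ := fun f u => ∑ v, if lam v = u then f v else 0 with hpf
  have pf_lam : ∀ (f : V → ℝ) (v : V), pf f (lam v) = f v := by
    intro f v
    simp only [hpf]
    rw [Finset.sum_eq_single v]
    · simp
    · intro b _ hb
      rw [if_neg fun h => hb (hl h)]
    · intro h
      exact absurd (Finset.mem_univ v) h
  have pf_out : ∀ (f : V → ℝ) (u : W), (∀ v, lam v ≠ u) → pf f u = 0 := by
    intro f u hu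
    simp only [hpf]
    exact Finset.sum_eq_zero fun v _ => if_neg (hu v)
  have pf_sum : ∀ f : V → ℝ, ∑ u, pf f u = ∑ v, f v := by
    intro f
    simp only [hpf]
    rw [Finset.sum_comm]
    refine Finset.sum_congr rfl fun v _ => ?_
    simp
  have pf_nonneg : ∀ f : V → ℝ, (∀ v, 0 ≤ f v) → ∀ u, 0 ≤ pf f u := by
    intro f hf u
    simp only [hpf]
    refine Finset.sum_nonneg fun v _ => ?_
    split_ifs
    · exact hf v
    · exact le_rfl
  have pf_supp : ∀ f : V → ℝ, (Finset.univ.filter fun u => 0 < pf f u) =
      (Finset.univ.filter fun v => 0 < f v).image lam := by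
    intro f
    ext u
    simp only [Finset.mem_filter, Finset.mem_univ, true_and, Finset.mem_image]
    constructor
    · intro hu
      by_cases h : ∃ v, lam v = u
      · obtain ⟨v, rfl⟩ := h
        exact ⟨v, by rwa [pf_lam] at hu, rfl⟩
      · push Not at h
        rw [pf_out f u h] at hu
        exact absurd hu (lt_irrefl 0)
    · rintro ⟨v, hv, rfl⟩
      rwa [pf_lam]
  -- weights outside the range vanish
  have out : ∀ y : Real D, ∀ u, (∀ v, lam v ≠ u) → ev y u = 0 := by
    intro y u hu
    obtain ⟨s, _, hs⟩ := (hD _).1 (ev_mem y)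
    by_contra hne
    have hpos : 0 < ev y u := lt_of_le_of_ne (ev_nonneg y u) (Ne.symm hne)
    have : u ∈ (Finset.univ.filter fun u => 0 < ev y u) := by simp [hpos]
    rw [hs, Finset.mem_image] at this
    obtain ⟨v, _, hv⟩ := this
    exact hu v hv
  have pf_pull : ∀ y : Real D, ∀ u, pf (fun v => ev y (lam v)) u = ev y u := by
    intro y u
    by_cases h : ∃ v, lam v = u
    · obtain ⟨v, rfl⟩ := h
      rw [pf_lam]
    · push Not at h
      rw [pf_out _ u h, out y u h]
  have pull_sum : ∀ y : Real D, ∑ v, ev y (lam v) = 1 := by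
    intro y
    rw [← pf_sum fun v => ev y (lam v)]
    rw [← ev_sum y]
    exact Finset.sum_congr rfl fun u _ => pf_pull y u
  have pull_supp : ∀ y : Real D, (Finset.univ.filter fun v => 0 < ev y (lam v)) ∈ C := by
    intro y
    obtain ⟨s, hsC, hs⟩ := (hD _).1 (ev_mem y)
    have : (Finset.univ.filter fun v => 0 < ev y (lam v)) = s := by
      ext v
      have h1 : lam v ∈ (Finset.univ.filter fun u => 0 < ev y u) ↔ lam v ∈ s.image lam := by rw [hs]
      simp only [Finset.mem_filter, Finset.mem_univ, true_and] at h1 ⊢
      rw [h1, Finset.mem_image]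
      constructor
      · rintro ⟨a, ha, hav⟩
        rwa [← hl hav]
      · intro hv
        exact ⟨v, hv, rfl⟩
    rw [this]
    exact hsC
  refine ⟨{
    toFun := fun w => mk (pf (ev w)) (pf_nonneg _ (ev_nonneg w)) (by rw [pf_sum, ev_sum])
      (by
        rw [pf_supp]
        exact (hD _).2 ⟨_, ev_mem w, rfl⟩)
    invFun := fun y => mk (fun v => ev y (lam v)) (fun v => ev_nonneg y _) (pull_sum y) (pull_supp y)
    left_inv := fun w => RAux.ext fun v => by
      rw [ev_mk, ev_mk, pf_lam]
    right_inv := fun y => RAux.ext fun u => by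
      rw [ev_mk]
      have : (fun v => ev y (lam v)) = ev (mk (C := C) (fun v => ev y (lam v))
        (fun v => ev_nonneg y _) (pull_sum y) (pull_supp y)) := rfl
      rw [← this]
      exact pf_pull y u
    continuous_toFun := ?_
    continuous_invFun := ?_ }⟩
  · refine Continuous.subtype_mk (Continuous.subtype_mk (continuous_pi fun u => ?_) _) _
    simp only [hpf]
    refine continuous_finsetSum _ fun v _ => ?_
    split_ifs
    · exact continuous_ev v
    · exact continuous_const
  · refine Continuous.subtype_mk (Continuous.subtype_mk (continuous_pi fun v => ?_) _) _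
    exact continuous_ev (lam v)

end Pool.Agent.helper73.TC
end
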